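import Pool.Agent.Q290.CV.NN

/-!
# The share of the candidates `n ^ n + 1` which are prime, at a given level of information

If `n ^ n + 1` is prime and `n > 1` then `n = 2 ^ (2 ^ k)`. The usual model: the events that `N k = n ^ n + 1`, `n = 2 ^ (2 ^ k)`, is prime are
independent with probabilities `q k`, `-log (q k) ~ c * 2 ^ k` (`c = log 2` for `q k = 1 / log (N k)`, up to sieve factors). Class `δ`: the random sets
`A` of integers for which the relative entropy of the law of the set of the `k < K` with `N k ∈ A` with respect to the model is at most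
`(δ + o(1)) c 2 ^ K`. The expected number of the `k < K` with `N k ∈ A` is at most `(δ + o(1)) K` for all `A` of class `δ`, and the laws of the
almost sure limits of their share are exactly the probability measures on `[0, 1]` of mean at most `δ`.
-/

set_option autoImplicit false

namespace Pool.Agent.Results.MP_a70bdc_nt.DensityAtGivenInformation

open Finset MeasureTheory Filter
open scoped Topology
open Pool.Agent.Q120.ET (IsRandomSet)
open Pool.Agent.Q290.CV (N info num)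

/-- The class `δ`. -/
def Cls (q : ℕ → ℝ) (c δ : ℝ) {Ω : Type} [MeasurableSpace Ω] (μ : Measure Ω) (A : Ω → Set ℕ) : Prop :=
  IsRandomSet A ∧ ∀ ε : ℝ, 0 < ε → ∀ᶠ K : ℕ in atTop, info q μ A K ≤ (δ + ε) * (c * 2 ^ K)

/-- **Theorem.** Let `N k = n ^ n + 1`, `n = 2 ^ (2 ^ k)`, `0 < q k < 1`, `-log (q k) / 2 ^ k → c > 0` and `δ ≥ 0`. (1) For all random sets `A` of
class `δ` the expected number of the `k < K` with `N k ∈ A` is at most `(δ + o(1)) K`. (2) A probability measure `ν` on `ℝ` is the law of an almost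
sure limit of (number of the `k < K` with `N k ∈ A`) / `K` for some `A` of class `δ` if and only if `ν` is carried by `[0, 1]` and has mean at most
`δ`. -/
theorem result (q : ℕ → ℝ) (hq : ∀ k, 0 < q k ∧ q k < 1) (c : ℝ) (hc : 0 < c)
    (hlim : Tendsto (fun k : ℕ => -Real.log (q k) / 2 ^ k) atTop (𝓝 c)) (δ : ℝ) (hδ : 0 ≤ δ) :
    (∀ (Ω : Type) [MeasurableSpace Ω] (μ : Measure Ω) [IsProbabilityMeasure μ] (A : Ω → Set ℕ), Cls q c δ μ A →
      ∀ ε : ℝ, 0 < ε → ∀ᶠ K : ℕ in atTop, ∫ ω, (num (A ω) K : ℝ) ∂μ ≤ (δ + ε) * K) ∧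
    ∀ ν : Measure ℝ, IsProbabilityMeasure ν →
      ((∃ (Ω : Type) (_ : MeasurableSpace Ω) (μ : Measure Ω) (_ : IsProbabilityMeasure μ) (A : Ω → Set ℕ) (L : Ω → ℝ),
        Cls q c δ μ A ∧ Measurable L ∧ μ.map L = ν ∧
          ∀ᵐ ω ∂μ, Tendsto (fun K : ℕ => (num (A ω) K : ℝ) / K) atTop (𝓝 (L ω))) ↔
      ν (Set.Icc 0 1)ᶜ = 0 ∧ ∫ u, u ∂ν ≤ δ) := by
  refine ⟨fun Ω _ μ _ A hA ε hε => ?_, fun ν hν => ⟨?_, ?_⟩⟩
  · filter_upwards [Pool.Agent.Q290.CV.mean_density hq hc hlim hδ (Pool.Agent.Q290.CV.idx_rand hA.1) hA.2 ε hε] with K hK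
    simp only [Pool.Agent.Q290.CV.num_eq]
    rw [Pool.Agent.Q290.CV.integral_cnt (Pool.Agent.Q290.CV.idx_rand hA.1)]
    exact hK
  · rintro ⟨Ω, m, μ, hμ, A, L, hA, hL, hmap, hlimL⟩
    simp only [Pool.Agent.Q290.CV.num_eq] at hlimL
    have h1 := Pool.Agent.Q290.CV.law_nec hq hc hlim hδ (Pool.Agent.Q290.CV.idx_rand hA.1) hA.2 hL hlimL
    rw [hmap] at h1
    exact h1
  · rintro ⟨h1, h2⟩
    obtain ⟨Ω, m, μ, hμ, B, L, hB, hD, hL, hmap, hlimL⟩ := Pool.Agent.Q290.CV.law_suf hq hc hlim hδ ν h1 h2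
    refine ⟨Ω, m, μ, hμ, fun ω => N '' B ω, L, ⟨Pool.Agent.Q290.CV.image_rand hB, ?_⟩, hL, hmap, ?_⟩
    · unfold info
      rw [Pool.Agent.Q290.CV.idx_image]
      exact hD
    · filter_upwards [hlimL] with ω hω
      have h3 : ∀ K, num (N '' B ω) K = Pool.Agent.Q120.ME.cnt Set.univ (B ω) K := by
        intro K
        have h4 := Pool.Agent.Q290.CV.num_eq (fun ω => N '' B ω) ω K
        rw [Pool.Agent.Q290.CV.idx_image] at h4
        exact h4
      simp only [h3]
      exact hω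

end Pool.Agent.Results.MP_a70bdc_nt.DensityAtGivenInformation
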