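import Pool.Agent.Q290.CV.NN

/-!
# How much information do infinitely many primes `n ^ n + 1` cost?

If `n ^ n + 1` is prime and `n > 1` then `n = 2 ^ (2 ^ k)`. The usual model: the events that `N k = n ^ n + 1`, `n = 2 ^ (2 ^ k)`, is prime are
independent with probabilities `q k`, `-log (q k)` of the order `2 ^ k` (`1 / log (N k)` up to sieve factors). Here `A` is ANY random set of integers
and `info q μ A K` the relative entropy of the law of the set of the `k < K` with `N k ∈ A` with respect to the model. For a nondecreasing function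
`d ≥ 0` almost surely only finitely many `N k` belong to `A`, for all `A` with `info q μ A K ≤ d K` for large `K`, if and only if
`∑ d K / 2 ^ K < ∞`; otherwise there is such an `A` which almost surely contains infinitely many `N k`.
-/

set_option autoImplicit false

namespace Pool.Agent.Results.MP_a70bdc_nt.FinitudeAtGivenInformation

open Finset MeasureTheory Filter
open Pool.Agent.Q120.ET (IsRandomSet)
open Pool.Agent.Q290.CV (N info)

/-- **Theorem.** Let `N k = n ^ n + 1`, `n = 2 ^ (2 ^ k)`, `0 < q k < 1` and `exp (-(C * 2 ^ k)) ≤ q k ≤ exp (-(c * 2 ^ k))` for all large `k`, where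
`c > 0`, and let `d ≥ 0` be nondecreasing. Almost surely only finitely many `N k` belong to `A`, for ALL random sets `A` of natural numbers such
that for all large `K` the relative entropy of the law of the set of the `k < K` with `N k ∈ A` with respect to the independent model with the
probabilities `q k` is at most `d K`, if and only if `∑ d K / 2 ^ K < ∞`. If this sum diverges, then there is such a random set which almost surely
contains `N k` for infinitely many `k`. -/
theorem result (q : ℕ → ℝ) (hq : ∀ k, 0 < q k ∧ q k < 1) (c C : ℝ) (hc : 0 < c)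
    (h : ∀ᶠ k : ℕ in atTop, Real.exp (-(C * 2 ^ k)) ≤ q k ∧ q k ≤ Real.exp (-(c * 2 ^ k)))
    (d : ℕ → ℝ) (hd : Monotone d) (hd0 : ∀ K, 0 ≤ d K) :
    ((∀ (Ω : Type) [MeasurableSpace Ω] (μ : Measure Ω) [IsProbabilityMeasure μ] (A : Ω → Set ℕ), IsRandomSet A →
      (∀ᶠ K : ℕ in atTop, info q μ A K ≤ d K) → ∀ᵐ ω ∂μ, {k | N k ∈ A ω}.Finite) ↔ Summable (fun K : ℕ => d K / 2 ^ K)) ∧
    (¬ Summable (fun K : ℕ => d K / 2 ^ K) →
      ∃ (Ω : Type) (_ : MeasurableSpace Ω) (μ : Measure Ω) (_ : IsProbabilityMeasure μ) (A : Ω → Set ℕ), IsRandomSet A ∧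
        (∀ᶠ K : ℕ in atTop, info q μ A K ≤ d K) ∧ ∀ᵐ ω ∂μ, {k | N k ∈ A ω}.Infinite) := by
  obtain ⟨h1, h2⟩ := Pool.Agent.Q290.CV.threshold (Pool.Agent.Q290.CV.model hq hc h) hd hd0
  simp only [Set.inter_univ, Pool.Agent.Q290.CV.ind_univ] at h1 h2
  rw [Pool.Agent.Q290.CV.sum_iff] at h1 h2
  refine ⟨⟨fun hall => h1.1 ?_, fun hs Ω _ μ _ A hA hD =>
    h1.2 hs Ω μ (Pool.Agent.Q290.CV.idx A) (Pool.Agent.Q290.CV.idx_rand hA) hD⟩, fun hs => ?_⟩
  · intro Ω _ μ _ B hB hD
    have h3 := hall Ω μ (fun ω => N '' B ω) (Pool.Agent.Q290.CV.image_rand hB) (by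
      unfold info
      rw [Pool.Agent.Q290.CV.idx_image]
      exact hD)
    filter_upwards [h3] with ω hω
    have h4 := congrFun (Pool.Agent.Q290.CV.idx_image B) ω
    rw [← h4]
    exact hω
  · obtain ⟨Ω, m, μ, hμ, B, hB, hD, hinf⟩ := h2 hs
    refine ⟨Ω, m, μ, hμ, fun ω => N '' B ω, Pool.Agent.Q290.CV.image_rand hB, ?_, ?_⟩
    · unfold info
      rw [Pool.Agent.Q290.CV.idx_image]
      exact hD
    · filter_upwards [hinf] with ω hω
      have h4 := congrFun (Pool.Agent.Q290.CV.idx_image B) ω
      rw [← h4] at hω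
      exact hω

end Pool.Agent.Results.MP_a70bdc_nt.FinitudeAtGivenInformation
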