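import Pool.Agent.Q217.SG.GaussMain

/-!
# Sparse representations of the multiples of a Fermat number as sums of two squares

The numbers `n ^ n + 1` of the problem which can be prime are the Fermat numbers
`F_m = 2 ^ (2 ^ m) + 1` with `n = 2 ^ (2 ^ k)`, `m = k + 2 ^ k`. By Euler a Fermat number is prime if and
only if `F_m = 1 ^ 2 + A ^ 2`, `A = 2 ^ (2 ^ (m - 1))` (that is `A = n ^ (n / 2)`), is its only
representation as a sum of two squares, and if a prime `p` divides `x ^ 2 + y ^ 2` then `y` is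
congruent to `x` times a root of `-1`.  We show that the Fermat numbers have these properties of
primes for integers with few binary digits.

(1) Let `m ≥ 2`, and let `x`, `y`, `q` be sums of `k₁`, `k₂`, `l` terms `c 2 ^ α` with sums `S₁`,
`S₂`, `S₃` of the `|c|`. Let `K = 2 (k₁ + k₂) + l` and
`(K + 1) 2 ^ K ⌊log_2 ((S₁ + S₂) ^ 2 + 2 S₃)⌋ < 2 ^ m`. If `x ^ 2 + y ^ 2 = q F_m` then
`y ≡ A x` or `y ≡ - A x` modulo `F_m`.

(2) If `F_m = x ^ 2 + y ^ 2` where `x`, `y` have `k₁`, `k₂` nonzero binary digits of either sign,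
`k = k₁ + k₂` and `((k + 1) 2 ^ (k + 1)) ^ 2 < 2 ^ m`, then `x = ±1`, `y = ±A` or `x = ±A`, `y = ±1`.
-/

set_option autoImplicit false

namespace Pool.Agent.Results.MP_a70bdc_nt.SumsOfTwoSquares

open Finset Q217.SG Q217.SG.Gauss

/-- The value `∑ c_i 2 ^ α_i`. -/
def value {k : ℕ} (c : Fin k → ℤ) (α : Fin k → ℕ) : ℤ := ∑ i, c i * 2 ^ α i

/-- The square root of `-1` modulo the Fermat number `F_m`. -/
def root (m : ℕ) : ℤ := 2 ^ (2 ^ (m - 1))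

/-- `x` is a sum of `k` terms `± 2 ^ i`. -/
def Sparse (k : ℕ) (x : ℤ) : Prop :=
  ∃ (c : Fin k → ℤ) (α : Fin k → ℕ), (∀ i, c i = 1 ∨ c i = -1) ∧ x = value c α

theorem root_sq {m : ℕ} (hm : 1 ≤ m) : root m ^ 2 + 1 = (Nat.fermatNumber m : ℤ) := by
  have e : (2 : ℕ) ^ m = 2 ^ (m - 1) * 2 := by rw [← pow_succ]; congr 1; omega
  simp only [root, Nat.fermatNumber]
  push_cast
  rw [e, pow_mul]

/-- the terms of `x + y i` (for `ε = 1`) and of `x - y i` (for `ε = -1`) -/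
def comb {k₁ k₂ : ℕ} (c₁ : Fin k₁ → ℤ) (c₂ : Fin k₂ → ℤ) (ε : ℤ) : Fin (k₁ + k₂) → GI :=
  Fin.addCases (fun i => (⟨c₁ i, 0⟩ : GI)) (fun j => (⟨0, ε * c₂ j⟩ : GI))

theorem sum_comb {k₁ k₂ : ℕ} (c₁ : Fin k₁ → ℤ) (α₁ : Fin k₁ → ℕ) (c₂ : Fin k₂ → ℤ)
    (α₂ : Fin k₂ → ℕ) (ε : ℤ) :
    ∑ i, comb c₁ c₂ ε i * 2 ^ (Fin.addCases α₁ α₂ i : ℕ) =
      (⟨value c₁ α₁, ε * value c₂ α₂⟩ : GI) := by
  rw [Fin.sum_univ_add]
  simp only [comb, Fin.addCases_left, Fin.addCases_right]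
  ext
  · rw [QuadraticAlgebra.re_add, re_sum, re_sum]
    simp only [re_mul_two_pow, value]
    simp
  · rw [QuadraticAlgebra.im_add, im_sum, im_sum]
    simp only [im_mul_two_pow, value]
    simp [Finset.mul_sum, mul_assoc]

theorem sum_sz_comb {k₁ k₂ : ℕ} (c₁ : Fin k₁ → ℤ) (c₂ : Fin k₂ → ℤ) (ε : ℤ) (hε : |ε| = 1) :
    ∑ i, sz (comb c₁ c₂ ε i) = ∑ i, |c₁ i| + ∑ i, |c₂ i| := by
  rw [Fin.sum_univ_add]
  simp only [comb, Fin.addCases_left, Fin.addCases_right, sz]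
  simp [abs_mul, hε]

theorem dvd_two {m : ℕ} (hm : 1 ≤ m) {x y : ℤ}
    (h : 1 + I * 2 ^ (2 ^ (m - 1)) ∣ (⟨x, y⟩ : GI)) :
    (Nat.fermatNumber m : ℤ) ∣ y - root m * x := by
  have hF := root_sq hm
  obtain ⟨z, hz⟩ := h
  have h1 : (1 + I * 2 ^ (2 ^ (m - 1)) : GI) = ⟨1, root m⟩ := by
    ext
    · rw [QuadraticAlgebra.re_add, re_mul_two_pow]
      simp [I, QuadraticAlgebra.re_one]
    · rw [QuadraticAlgebra.im_add, im_mul_two_pow]
      simp [I, QuadraticAlgebra.im_one, root]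
  rw [h1] at hz
  have hx : x = z.re - root m * z.im := by
    have := congrArg QuadraticAlgebra.re hz
    simp at this
    linarith
  have hy : y = z.im + root m * z.re := by
    have := congrArg QuadraticAlgebra.im hz
    simp at this
    linarith
  refine ⟨z.im, ?_⟩
  rw [← hF, hx, hy]
  ring

theorem part1 {m k₁ k₂ l : ℕ} (hm : 2 ≤ m) (c₁ : Fin k₁ → ℤ) (α₁ : Fin k₁ → ℕ)
    (c₂ : Fin k₂ → ℤ) (α₂ : Fin k₂ → ℕ) (d : Fin l → ℤ) (β : Fin l → ℕ)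
    (h : value c₁ α₁ ^ 2 + value c₂ α₂ ^ 2 = value d β * (Nat.fermatNumber m : ℤ))
    (hbig : (2 * (k₁ + k₂) + l + 1) * 2 ^ (2 * (k₁ + k₂) + l) *
      Nat.log 2 ((∑ i, (c₁ i).natAbs + ∑ i, (c₂ i).natAbs) ^ 2 + 2 * ∑ j, (d j).natAbs) < 2 ^ m) :
    (Nat.fermatNumber m : ℤ) ∣ value c₂ α₂ - root m * value c₁ α₁ ∨
      (Nat.fermatNumber m : ℤ) ∣ value c₂ α₂ + root m * value c₁ α₁ := by
  let k : Fin 2 → ℕ := fun _ => k₁ + k₂
  let c : ∀ t, Fin (k t) → GI := fun t => match t with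
    | 0 => comb c₁ c₂ 1
    | 1 => comb c₁ c₂ (-1)
  let α : ∀ t, Fin (k t) → ℕ := fun _ i => Fin.addCases α₁ α₂ i
  have hsum : ∑ t, k t + l = 2 * (k₁ + k₂) + l := by rw [Fin.sum_univ_two]; simp only [k]; ring
  obtain ⟨t, ht⟩ := gauss_main (m := m) hm k c α d β
    (by
      rw [Fin.prod_univ_two]
      have e0 : ∑ i, c 0 i * 2 ^ α 0 i = (⟨value c₁ α₁, 1 * value c₂ α₂⟩ : GI) :=
        sum_comb c₁ α₁ c₂ α₂ 1
      have e1 : ∑ i, c 1 i * 2 ^ α 1 i = (⟨value c₁ α₁, (-1) * value c₂ α₂⟩ : GI) :=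
        sum_comb c₁ α₁ c₂ α₂ (-1)
      rw [e0, e1]
      have e2 : (∑ j, (d j : GI) * 2 ^ β j) * (2 ^ (2 ^ m) + 1) =
          ((value d β * (Nat.fermatNumber m : ℤ) : ℤ) : GI) := by
        simp only [value, Nat.fermatNumber]
        push_cast
        rfl
      rw [e2, ← h]
      ext
      · rw [QuadraticAlgebra.re_intCast]
        simp
        ring
      · rw [QuadraticAlgebra.im_intCast]
        simp
        ring)
    (Nat.log 2 ((∑ i, (c₁ i).natAbs + ∑ i, (c₂ i).natAbs) ^ 2 + 2 * ∑ j, (d j).natAbs))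
    (by
      rw [Fin.prod_univ_two]
      have e0 : ∑ i, sz (c 0 i) = ∑ i, |c₁ i| + ∑ i, |c₂ i| := sum_sz_comb c₁ c₂ 1 (by norm_num)
      have e1 : ∑ i, sz (c 1 i) = ∑ i, |c₁ i| + ∑ i, |c₂ i| :=
        sum_sz_comb c₁ c₂ (-1) (by norm_num)
      rw [e0, e1]
      have h1 := Nat.lt_pow_succ_log_self (b := 2) (by norm_num)
        ((∑ i, (c₁ i).natAbs + ∑ i, (c₂ i).natAbs) ^ 2 + 2 * ∑ j, (d j).natAbs)
      have h2 := Int.ofNat_lt.2 h1
      push_cast at h2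
      rw [sq] at h2
      exact h2)
    (by rw [hsum]; exact hbig)
  match t, ht with
  | 0, ht =>
    have e0 : ∑ i, c 0 i * 2 ^ α 0 i = (⟨value c₁ α₁, 1 * value c₂ α₂⟩ : GI) :=
      sum_comb c₁ α₁ c₂ α₂ 1
    rw [e0, one_mul] at ht
    exact Or.inl (dvd_two (by omega) ht)
  | 1, ht =>
    have e1 : ∑ i, c 1 i * 2 ^ α 1 i = (⟨value c₁ α₁, (-1) * value c₂ α₂⟩ : GI) :=
      sum_comb c₁ α₁ c₂ α₂ (-1)
    rw [e1] at ht
    have h3 := dvd_two (by omega) ht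
    right
    have e2 : value c₂ α₂ + root m * value c₁ α₁ =
        -((-1) * value c₂ α₂ - root m * value c₁ α₁) := by ring
    rw [e2]
    exact (dvd_neg).2 h3

theorem trivial_of_dvd {F A x y : ℤ} (hF : A ^ 2 + 1 = F) (hxy : x ^ 2 + y ^ 2 = F)
    (h : F ∣ y - A * x) :
    ((x = 1 ∨ x = -1) ∧ (y = A ∨ y = -A)) ∨ ((x = A ∨ x = -A) ∧ (y = 1 ∨ y = -1)) := by
  obtain ⟨t, ht⟩ := h
  have hF0 : 0 < F := by rw [← hF]; positivity
  have h1 : (x + A * y) ^ 2 + (y - A * x) ^ 2 = F ^ 2 := by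
    calc (x + A * y) ^ 2 + (y - A * x) ^ 2 = (A ^ 2 + 1) * (x ^ 2 + y ^ 2) := by ring
      _ = F ^ 2 := by rw [hF, hxy]; ring
  have h2 : t ^ 2 ≤ 1 := by
    rw [ht] at h1
    have h3 : (F * t) ^ 2 ≤ F ^ 2 := by nlinarith [sq_nonneg (x + A * y)]
    have h4 : F ^ 2 * t ^ 2 ≤ F ^ 2 * 1 := by rw [← mul_pow, mul_one]; exact h3
    exact le_of_mul_le_mul_left h4 (by positivity)
  have h3 : t = 0 ∨ t = 1 ∨ t = -1 := by
    have : -1 ≤ t ∧ t ≤ 1 := by constructor <;> nlinarith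
    omega
  have hsq : ∀ z : ℤ, z ^ 2 * F = F → z = 1 ∨ z = -1 := by
    intro z hz
    have : z ^ 2 = 1 := by
      have h5 : z ^ 2 * F = 1 * F := by rw [one_mul]; exact hz
      exact mul_right_cancel₀ hF0.ne' h5
    have h6 : (z - 1) * (z + 1) = 0 := by linear_combination this
    rcases mul_eq_zero.1 h6 with h7 | h7
    · left; linarith
    · right; linarith
  rcases h3 with h3 | h3
  · left
    rw [h3, mul_zero] at ht
    have hy : y = A * x := by linarith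
    have hx := hsq x (by rw [← hF]; rw [hy] at hxy; rw [← hF] at hxy; linarith)
    refine ⟨hx, ?_⟩
    rcases hx with h | h <;> rw [hy, h]
    · left; ring
    · right; ring
  · right
    have h4 : x + A * y = 0 := by
      have h5 : (y - A * x) ^ 2 = F ^ 2 := by
        rw [ht]
        rcases h3 with h | h <;> rw [h] <;> ring
      have h6 : (x + A * y) ^ 2 = 0 := by linarith
      exact pow_eq_zero_iff (by norm_num) |>.1 h6
    have hx : x = -(A * y) := by linarith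
    have hy := hsq y (by rw [← hF]; rw [hx] at hxy; rw [← hF] at hxy; linarith)
    refine ⟨?_, hy⟩
    rcases hy with h | h <;> rw [hx, h]
    · right; ring
    · left; ring

theorem part2 {m k₁ k₂ : ℕ} (hm : 2 ≤ m) {x y : ℤ} (hx : Sparse k₁ x) (hy : Sparse k₂ y)
    (hbig : ((k₁ + k₂ + 1) * 2 ^ (k₁ + k₂ + 1)) ^ 2 < 2 ^ m)
    (h : x ^ 2 + y ^ 2 = (Nat.fermatNumber m : ℤ)) :
    ((x = 1 ∨ x = -1) ∧ (y = root m ∨ y = -root m)) ∨
      ((x = root m ∨ x = -root m) ∧ (y = 1 ∨ y = -1)) := by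
  obtain ⟨c₁, α₁, hc₁, rfl⟩ := hx
  obtain ⟨c₂, α₂, hc₂, rfl⟩ := hy
  have habs : ∀ {n : ℕ} (e : Fin n → ℤ), (∀ i, e i = 1 ∨ e i = -1) →
      ∑ i, (e i).natAbs = n := by
    intro n e he
    have : ∀ i, (e i).natAbs = 1 := by
      intro i
      rcases he i with h | h <;> rw [h] <;> rfl
    simp [this]
  have hpow : ∀ k : ℕ, k ^ 2 + 2 < 2 ^ (k + 2) := by
    intro k
    induction k with
    | zero => norm_num
    | succ k ih =>
      have e : 2 ^ (k + 1 + 2) = 2 * 2 ^ (k + 2) := by ring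
      have h2 : 2 * k ≤ k ^ 2 + 1 := by
        rcases Nat.lt_or_ge k 2 with h | h
        · interval_cases k <;> norm_num
        · nlinarith
      rw [e]
      nlinarith
  have h1 := part1 hm c₁ α₁ c₂ α₂ (fun _ : Fin 1 => 1) (fun _ => 0)
    (by
      rw [h]
      simp [value])
    (by
      rw [habs c₁ hc₁, habs c₂ hc₂]
      generalize hk : k₁ + k₂ = k at *
      have hlog : Nat.log 2 (k ^ 2 + 2 * ∑ _j : Fin 1, (1 : ℤ).natAbs) ≤ k + 1 := by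
        have : Nat.log 2 (k ^ 2 + 2 * ∑ _j : Fin 1, (1 : ℤ).natAbs) < k + 2 := by
          apply Nat.log_lt_of_lt_pow'
          · omega
          · simpa using hpow k
        omega
      calc (2 * k + 1 + 1) * 2 ^ (2 * k + 1) *
            Nat.log 2 (k ^ 2 + 2 * ∑ _j : Fin 1, (1 : ℤ).natAbs)
          ≤ (2 * k + 1 + 1) * 2 ^ (2 * k + 1) * (k + 1) := Nat.mul_le_mul_left _ hlog
        _ = ((k + 1) * 2 ^ (k + 1)) ^ 2 := by ring
        _ < 2 ^ m := hbig)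
  have hF := root_sq (m := m) (by omega)
  rcases h1 with h1 | h1
  · exact trivial_of_dvd hF h h1
  · have h2 : (-root m) ^ 2 + 1 = (Nat.fermatNumber m : ℤ) := by rw [neg_sq, hF]
    have h3 : (Nat.fermatNumber m : ℤ) ∣ value c₂ α₂ - (-root m) * value c₁ α₁ := by
      rw [neg_mul, sub_neg_eq_add]; exact h1
    rcases trivial_of_dvd h2 h h3 with ⟨h4, h5⟩ | ⟨h4, h5⟩
    · left
      refine ⟨h4, ?_⟩
      rw [neg_neg] at h5
      exact h5.symm
    · right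
      rw [neg_neg] at h4
      exact ⟨h4.symm, h5⟩

/-- **Sparse representations of multiples of Fermat numbers as sums of two squares.**
(1) If `x ^ 2 + y ^ 2 = q F_m` where `x`, `y`, `q` have few windows of binary digits, then
`y ≡ ± 2 ^ (2 ^ (m - 1)) x` modulo `F_m`.
(2) `F_m = 1 ^ 2 + (2 ^ (2 ^ (m - 1))) ^ 2` is the only representation of `F_m` as a sum of two
squares of integers with few binary digits. -/
theorem result :
    (∀ (m k₁ k₂ l : ℕ), 2 ≤ m → ∀ (c₁ : Fin k₁ → ℤ) (α₁ : Fin k₁ → ℕ)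
      (c₂ : Fin k₂ → ℤ) (α₂ : Fin k₂ → ℕ) (d : Fin l → ℤ) (β : Fin l → ℕ),
      value c₁ α₁ ^ 2 + value c₂ α₂ ^ 2 = value d β * (Nat.fermatNumber m : ℤ) →
      (2 * (k₁ + k₂) + l + 1) * 2 ^ (2 * (k₁ + k₂) + l) *
        Nat.log 2 ((∑ i, (c₁ i).natAbs + ∑ i, (c₂ i).natAbs) ^ 2 + 2 * ∑ j, (d j).natAbs) <
          2 ^ m →
      (Nat.fermatNumber m : ℤ) ∣ value c₂ α₂ - root m * value c₁ α₁ ∨
        (Nat.fermatNumber m : ℤ) ∣ value c₂ α₂ + root m * value c₁ α₁) ∧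
    (∀ (m k₁ k₂ : ℕ) (x y : ℤ), 2 ≤ m → Sparse k₁ x → Sparse k₂ y →
      ((k₁ + k₂ + 1) * 2 ^ (k₁ + k₂ + 1)) ^ 2 < 2 ^ m →
      x ^ 2 + y ^ 2 = (Nat.fermatNumber m : ℤ) →
      ((x = 1 ∨ x = -1) ∧ (y = root m ∨ y = -root m)) ∨
        ((x = root m ∨ x = -root m) ∧ (y = 1 ∨ y = -1))) :=
  ⟨fun _ _ _ _ hm c₁ α₁ c₂ α₂ d β h hbig => part1 hm c₁ α₁ c₂ α₂ d β h hbig,
    fun _ _ _ _ _ hm hx hy hbig h => part2 hm hx hy hbig h⟩

end Pool.Agent.Results.MP_a70bdc_nt.SumsOfTwoSquares
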